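import Mathlib

set_option autoImplicit false

/-!
The nim-sequence of a subtraction game and its zero-indicator may have different periods: for the
subtraction set `{2, 3, 5, 8, 9, 10}` both sequences are purely periodic, the nim-sequence with
period 26 and its zero-indicator with period 13.
-/

namespace Pool.Agent.Results.MP_052694_co.Counterexample

/-- The nim-value of a pile of `n` tokens in the subtraction game with subtraction set `S`: the
least natural number `k` that differs from the nim-value of every pile of `n - s` tokens, `s` an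
element of `S` with `0 < s ≤ n`. -/
noncomputable def nim (S : Finset ℕ) (n : ℕ) : ℕ :=
  sInf {k | ∀ s : {s : ℕ // s ∈ S ∧ 0 < s ∧ s ≤ n}, nim S (n - s.1) ≠ k}
termination_by n
decreasing_by
  have := s.2
  omega

/-- The zero-indicator of the nim-sequence: `0` where the nim-value is `0`, and `1` otherwise. -/
noncomputable def ind (S : Finset ℕ) (n : ℕ) : ℕ :=
  if nim S n = 0 then 0 else 1

/-- `p` is the period of the ultimately periodic sequence `a`: the least positive integer for which
`a (n + p) = a n` for all sufficiently large `n`. -/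
def IsPeriod (a : ℕ → ℕ) (p : ℕ) : Prop :=
  IsLeast {p | 0 < p ∧ ∃ n₀, ∀ n, n₀ ≤ n → a (n + p) = a n} p

/-- the subtraction set of the counterexample -/
def S0 : Finset ℕ := {2, 3, 5, 8, 9, 10}

/-- one period of the nim-sequence -/
def tab : Fin 26 → ℕ :=
  ![0, 0, 1, 1, 2, 2, 3, 0, 4, 1, 3, 2, 4, 0, 0, 1, 1, 2, 2, 4, 0, 3, 1, 4, 2, 3]

/-- the nim-sequence as a table -/
def g (n : ℕ) : ℕ := tab ⟨n % 26, Nat.mod_lt _ (by norm_num)⟩

theorem nim_eq (n : ℕ) (S : Finset ℕ) :
    nim S n = sInf {k | ∀ s : {s : ℕ // s ∈ S ∧ 0 < s ∧ s ≤ n}, nim S (n - s.1) ≠ k} := by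
  rw [nim]

theorem g_add (n : ℕ) : g (n + 26) = g n := by
  unfold g
  congr 1
  ext
  simp

theorem g_mod (n : ℕ) : g (n % 26) = g n := by
  unfold g
  congr 1
  ext
  simp

/-- the recursion holds in the first piles -/
theorem g_small : ∀ n : Fin 36, (∀ s ∈ S0, s ≤ (n : ℕ) → g (n - s) ≠ g n) ∧
    ∀ k : Fin 5, (k : ℕ) < g n → ∃ s ∈ S0, s ≤ (n : ℕ) ∧ g (n - s) = k := by
  decide

theorem g_le (n : ℕ) : g n < 5 := by
  unfold g
  generalize (⟨n % 26, Nat.mod_lt _ (by norm_num)⟩ : Fin 26) = i
  revert i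
  decide

theorem S0_le : ∀ s ∈ S0, 0 < s ∧ s ≤ 10 := by decide

theorem g_rec (n : ℕ) : (∀ s ∈ S0, s ≤ n → g (n - s) ≠ g n) ∧
    ∀ k : ℕ, k < g n → ∃ s ∈ S0, s ≤ n ∧ g (n - s) = k := by
  induction n using Nat.strong_induction_on with
  | _ n ih =>
    rcases Nat.lt_or_ge n 36 with h | h
    · have h1 := g_small ⟨n, h⟩
      refine ⟨h1.1, fun k hk => ?_⟩
      have hk5 : k < 5 := lt_trans hk (g_le n)
      exact h1.2 ⟨k, hk5⟩ hk
    · obtain ⟨m, rfl⟩ : ∃ m, n = m + 26 := ⟨n - 26, by omega⟩
      obtain ⟨h1, h2⟩ := ih m (by omega)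
      constructor
      · intro s hs _
        have := S0_le s hs
        have e : m + 26 - s = (m - s) + 26 := by omega
        rw [e, g_add, g_add]
        exact h1 s hs (by omega)
      · intro k hk
        rw [g_add] at hk
        obtain ⟨s, hs, hsm, hg⟩ := h2 k hk
        refine ⟨s, hs, by omega, ?_⟩
        have e : m + 26 - s = (m - s) + 26 := by omega
        rw [e, g_add]
        exact hg

theorem nim_g (n : ℕ) : nim S0 n = g n := by
  induction n using Nat.strong_induction_on with
  | _ n ih =>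
    rw [nim_eq]
    have hset : {k | ∀ s : {s : ℕ // s ∈ S0 ∧ 0 < s ∧ s ≤ n}, nim S0 (n - s.1) ≠ k} =
        {k | ∀ s ∈ S0, s ≤ n → g (n - s) ≠ k} := by
      ext k
      constructor
      · intro hk s hs hsn
        have h0 := S0_le s hs
        have := hk ⟨s, hs, h0.1, hsn⟩
        rwa [ih (n - s) (by omega)] at this
      · rintro hk ⟨s, hs, h0, hsn⟩
        show nim S0 (n - s) ≠ k
        rw [ih (n - s) (by omega)]
        exact hk s hs hsn
    rw [hset]
    obtain ⟨h1, h2⟩ := g_rec n
    apply IsLeast.csInf_eq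
    refine ⟨h1, fun k hk => ?_⟩
    by_contra hlt
    obtain ⟨s, hs, hsn, hg⟩ := h2 k (not_le.mp hlt)
    exact hk s hs hsn hg

theorem eventually_all {a : ℕ → ℕ} (hper : ∀ n, a (n + 26) = a n) {p : ℕ}
    (h : ∃ n₀, ∀ n, n₀ ≤ n → a (n + p) = a n) (r : ℕ) : a (r + p) = a r := by
  obtain ⟨n₀, hn⟩ := h
  have hm : ∀ (j m : ℕ), a (m + 26 * j) = a m := by
    intro j
    induction j with
    | zero => intro m; simp
    | succ j ihj =>
      intro m
      rw [Nat.mul_succ, ← Nat.add_assoc, hper, ihj]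
  have h1 := hn (r + 26 * n₀) (by omega)
  have e : r + 26 * n₀ + p = r + p + 26 * n₀ := by omega
  rw [e, hm, hm] at h1
  exact h1

/-- the zero-indicator as a table -/
def v (n : ℕ) : ℕ := if g n = 0 then 0 else 1

theorem v_add (n : ℕ) : v (n + 26) = v n := by
  unfold v
  rw [g_add]

theorem v_add13 (n : ℕ) : v (n + 13) = v n := by
  have key : ∀ i : Fin 26, v (i + 13) = v i := by decide
  have h1 := key ⟨n % 26, Nat.mod_lt _ (by norm_num)⟩
  have e1 : v (n % 26 + 13) = v (n + 13) := by
    unfold v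
    rw [← g_mod (n % 26 + 13), ← g_mod (n + 13)]
    congr 2
    congr 1
    omega
  have e2 : v (n % 26) = v n := by
    unfold v
    rw [g_mod]
  rw [← e1, ← e2]
  exact h1

theorem g_noper : ∀ p : Fin 26, 0 < (p : ℕ) → ∃ r : Fin 26, g (r + p) ≠ g r := by decide

theorem v_noper : ∀ p : Fin 13, 0 < (p : ℕ) → ∃ r : Fin 13, v (r + p) ≠ v r := by decide

theorem period_g : IsPeriod (nim S0) 26 := by
  have e : nim S0 = g := funext nim_g
  rw [e]
  refine ⟨⟨by norm_num, 0, fun n _ => g_add n⟩, ?_⟩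
  rintro p ⟨hp, hper⟩
  by_contra hlt
  obtain ⟨r, hr⟩ := g_noper ⟨p, not_le.mp hlt⟩ hp
  exact hr (eventually_all g_add hper r)

theorem period_v : IsPeriod (ind S0) 13 := by
  have e : ind S0 = v := by
    funext n
    unfold ind v
    rw [nim_g]
  rw [e]
  refine ⟨⟨by norm_num, 0, fun n _ => v_add13 n⟩, ?_⟩
  rintro p ⟨hp, hper⟩
  by_contra hlt
  obtain ⟨r, hr⟩ := v_noper ⟨p, not_le.mp hlt⟩ hp
  exact hr (eventually_all v_add hper r)

/-- There is a finite nonempty set `S` of positive integers, namely `{2, 3, 5, 8, 9, 10}`, such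
that the nim-sequence of the subtraction game with subtraction set `S` has period `26` while its
zero-indicator has period `13`. So the two periods need not be equal. -/
theorem result : ∃ S : Finset ℕ, S.Nonempty ∧ (∀ s ∈ S, 0 < s) ∧
    IsPeriod (nim S) 26 ∧ IsPeriod (ind S) 13 :=
  ⟨S0, ⟨2, by decide⟩, fun s hs => (S0_le s hs).1, period_g, period_v⟩

end Pool.Agent.Results.MP_052694_co.Counterexample
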